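import Pool.Agent.K6.H86.WS.Tower

set_option autoImplicit false
set_option maxHeartbeats 4000000

/-! # Towers of exponentials and properties which hold somewhere in every short interval: dimension

The proofs follow `Pool.Agent.K6.H86.WT.Main`. -/

namespace Pool.Agent.K6.H86.WS

open Filter Pool.Agent.K6.H86.WT

/-- **The Cantor construction from one interval.** -/
theorem base (c₁ c₂ θ s X₀ : ℝ) (hc₁ : 0 < c₁) (hc₂ : 0 ≤ c₂) (hθ : 0 < θ) (hs0 : 0 < s) (hsθ : s + θ < 1) :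
    ∃ Xs : ℝ, ∀ c : ℕ → ℝ, (∀ l, c₁ ≤ c l ∧ c l ≤ c₂) → ∀ P : ℕ → ℕ → Prop, (∀ l, Short θ X₀ (P l)) →
      ∀ (k₁ : ℕ) (p₀ q₀ : ℝ), start c₁ ≤ p₀ → Xs ≤ tower c k₁ p₀ → tower c k₁ q₀ = tower c k₁ p₀ + 1 / 2 →
        ENNReal.ofReal s ≤
          dimH {t : ℝ | p₀ ≤ t ∧ t ≤ q₀ ∧ ∀ l, k₁ < l → P l ⌊tower c l t⌋₊} := by
  have hs1 : s < 1 := by linarith
  obtain ⟨β, hβ⟩ : ∃ β : ℝ, β = min 1 ((Real.exp (c₁ / 2) - 1) / 2) := ⟨_, rfl⟩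
  have he : 1 < Real.exp (c₁ / 2) := Real.one_lt_exp_iff.2 (by linarith)
  have hβ0 : 0 < β := by rw [hβ]; exact lt_min one_pos (by linarith)
  have hβ1 : β ≤ 1 := by rw [hβ]; exact min_le_left _ _
  have hβ2 : 1 + 2 * β ≤ Real.exp (c₁ / 2) := by
    have : β ≤ (Real.exp (c₁ / 2) - 1) / 2 := by rw [hβ]; exact min_le_right _ _
    linarith
  have hK : 1 ≤ 2 * Real.exp c₂ ^ 2 := by
    have : 1 ≤ Real.exp c₂ := Real.one_le_exp hc₂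
    nlinarith
  obtain ⟨X₁, hX₁⟩ := window θ s β (2 * Real.exp c₂ ^ 2) X₀ hθ hs0 hsθ hβ0 hβ1 hK
  have hDW : 1 ≤ 16 / β := by
    rw [le_div_iff₀ hβ0]
    linarith
  obtain ⟨Xs, hXs⟩ : ∃ Xs : ℝ, Xs = max (X₁ : ℝ) (max (4 / β) (Real.exp c₂ / (2 * β))) := ⟨_, rfl⟩
  have hs1' : (X₁ : ℝ) ≤ Xs := by rw [hXs]; exact le_max_left _ _
  have hs2' : 4 / β ≤ Xs := by rw [hXs]; exact (le_max_left _ _).trans (le_max_right _ _)
  have hs3' : Real.exp c₂ / (2 * β) ≤ Xs := by rw [hXs]; exact (le_max_right _ _).trans (le_max_right _ _)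
  refine ⟨Xs, fun c hc P hP k₁ p₀ q₀ hp3 hk1 hq1 => ?_⟩
  have hpos : ∀ l, 0 < c l := fun l => lt_of_lt_of_le hc₁ (hc l).1
  have hmono := tower_mono c hpos k₁
  have hq2 : p₀ < q₀ := hmono.lt_iff_lt.1 (by rw [hq1]; linarith)
  obtain ⟨AD, hAD⟩ : ∃ AD : ℕ → ℝ → ℝ → Prop, ∀ j p q, AD j p q ↔ (start c₁ ≤ p ∧ Xs ≤ tower c (k₁ + j) p ∧
      tower c (k₁ + j) q = tower c (k₁ + j) p + 1 / 2 ∧
      (0 < j → ∃ N : ℕ, tower c (k₁ + j) p = N ∧ P (k₁ + j) N)) := ⟨_, fun _ _ _ => Iff.rfl⟩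
  have hcan := Pool.Agent.K6.H86.MM.cantor AD s (2 * Real.exp c₂ ^ 2 * (16 / β)) (1 / 2) hs0 hs1
    (by positivity) (by norm_num) (by norm_num) p₀ q₀ hq2
    ((hAD 0 p₀ q₀).2 ⟨hp3, hk1, hq1, fun h => absurd h (lt_irrefl 0)⟩)
    (fun j p q hj hpq => by
      obtain ⟨h1, h2, h3, -⟩ := (hAD j p q).1 hj
      exact division c₁ c₂ hc₁ c hc (16 / β) s β hDW hs0 hs1 hβ0 hβ1 hβ2 X₁ (P (k₁ + j + 1))
        (fun X x g1 g2 g3 => hX₁ (P (k₁ + j + 1)) (hP _) X x g1 g2 g3)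
        Xs hs1' hs2' hs3' (k₁ + j) p q h1 h2 h3 (AD (j + 1))
        (fun x y N g1 g2 g3 g4 g5 => (hAD (j + 1) x y).2
          ⟨h1.trans g1, by
            show Xs ≤ tower c (k₁ + j + 1) x
            rw [g2]; exact g4, by
            show tower c (k₁ + j + 1) y = tower c (k₁ + j + 1) x + 1 / 2
            rw [g2, g3], fun _ => ⟨N, g2, g5⟩⟩))
  refine hcan.trans (dimH_mono ?_)
  rintro t ⟨ht1, ht2, ht3⟩
  refine ⟨ht1, ht2, fun l hl => ?_⟩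
  obtain ⟨j, rfl⟩ : ∃ j, l = k₁ + j := ⟨l - k₁, by omega⟩
  obtain ⟨p, q, hj, g1, g2⟩ := ht3 j
  obtain ⟨-, -, h3, h4⟩ := (hAD j p q).1 hj
  obtain ⟨N, hN1, hN2⟩ := h4 (by omega)
  have hm := tower_mono c hpos (k₁ + j)
  have e1 : (N : ℝ) ≤ tower c (k₁ + j) t := by rw [← hN1]; exact hm.monotone g1
  have e2 : tower c (k₁ + j) t ≤ N + 1 / 2 := by rw [← hN1, ← h3]; exact hm.monotone g2
  have e3 : ⌊tower c (k₁ + j) t⌋₊ = N := by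
    rw [Nat.floor_eq_iff (by
      have : (0 : ℝ) ≤ N := Nat.cast_nonneg N
      linarith)]
    exact ⟨e1, by linarith⟩
  rw [e3]
  exact hN2

/-- **The dimension on intervals beyond the starting height.** -/
theorem core (c₁ c₂ θ s X₀ : ℝ) (hc₁ : 0 < c₁) (hc₂ : 0 ≤ c₂) (hθ : 0 < θ) (hs0 : 0 < s) (hsθ : s + θ < 1)
    (c : ℕ → ℝ) (hc : ∀ l, c₁ ≤ c l ∧ c l ≤ c₂) (P : ℕ → ℕ → Prop) (hP : ∀ l, Short θ X₀ (P l))
    (a b : ℝ) (ha : start c₁ ≤ a) (hab : a < b) :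
      ENNReal.ofReal s ≤ dimH {t : ℝ | a < t ∧ t < b ∧ ∃ l₀, ∀ l, l₀ ≤ l → P l ⌊tower c l t⌋₊} := by
  have hpos : ∀ l, 0 < c l := fun l => lt_of_lt_of_le hc₁ (hc l).1
  obtain ⟨Xs, hbase⟩ := base c₁ c₂ θ s X₀ hc₁ hc₂ hθ hs0 hsθ
  -- the first interval
  obtain ⟨p₀, hp₀⟩ : ∃ p₀ : ℝ, p₀ = (a + b) / 2 := ⟨_, rfl⟩
  have hp1 : a < p₀ := by rw [hp₀]; linarith
  have hp2 : p₀ < b := by rw [hp₀]; linarith
  have hp3 : start c₁ ≤ p₀ := by linarith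
  obtain ⟨k₁, hk₁⟩ : ∃ k₁ : ℕ, Xs ≤ tower c k₁ p₀ ∧ 1 / 2 < tower c k₁ b - tower c k₁ p₀ := by
    have t1 : Tendsto (fun l : ℕ => (l : ℝ)) atTop atTop := tendsto_natCast_atTop_atTop
    have t2 : Tendsto (fun l : ℕ => (2 : ℝ) ^ l * (b - p₀)) atTop atTop :=
      (tendsto_pow_atTop_atTop_of_one_lt (by norm_num)).atTop_mul_const (by linarith)
    obtain ⟨l, hl1, hl2⟩ := ((t1.eventually_ge_atTop Xs).and (t2.eventually_gt_atTop (1 / 2))).exists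
    refine ⟨l, ?_, ?_⟩
    · have h1 := tower_ge c₁ c₂ hc₁ c hc p₀ hp3 l
      have h2 : 0 ≤ start c₁ := by unfold start; positivity
      linarith
    · have h1 := gap_pow c₁ c₂ hc₁ c hc l p₀ b hp3 hp2.le
      linarith
  obtain ⟨hk1, hk2⟩ := hk₁
  obtain ⟨q₀, hq0, hq1⟩ := intermediate_value_Icc hp2.le (tower_cont c k₁).continuousOn
    (show tower c k₁ p₀ + 1 / 2 ∈ Set.Icc (tower c k₁ p₀) (tower c k₁ b) from ⟨by linarith, by linarith⟩)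
  have hmono := tower_mono c hpos k₁
  have hq3 : q₀ < b := hmono.lt_iff_lt.1 (by rw [hq1]; linarith)
  refine (hbase c hc P hP k₁ p₀ q₀ hp3 hk1 hq1).trans (dimH_mono ?_)
  rintro t ⟨ht1, ht2, ht3⟩
  exact ⟨by linarith, by linarith, k₁ + 1, fun l hl => ht3 l (by omega)⟩

/-- **The dimension on all intervals on which the tower tends to infinity at some point.** -/
theorem main (c₁ c₂ θ s X₀ : ℝ) (hc₁ : 0 < c₁) (hθ : 0 < θ) (hs0 : 0 < s) (hsθ : s + θ < 1)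
    (c : ℕ → ℝ) (hc : ∀ l, c₁ ≤ c l ∧ c l ≤ c₂) (P : ℕ → ℕ → Prop) (hP : ∀ l, Short θ X₀ (P l))
    (a b : ℝ) (hab : a < b) (ht : ∃ t, t < b ∧ Tendsto (fun l => tower c l t) atTop atTop) :
      ENNReal.ofReal s ≤ dimH {t : ℝ | a < t ∧ t < b ∧ ∃ l₀, ∀ l, l₀ ≤ l → P l ⌊tower c l t⌋₊} := by
  have hpos : ∀ l, 0 < c l := fun l => lt_of_lt_of_le hc₁ (hc l).1
  have hc₂ : 0 ≤ c₂ := by have := hc 0; linarith [this.1, this.2]
  obtain ⟨t₀, ht1, ht2⟩ := ht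
  obtain ⟨a', ha'⟩ : ∃ a' : ℝ, a' = max a t₀ := ⟨_, rfl⟩
  have h1 : a ≤ a' := by rw [ha']; exact le_max_left _ _
  have h2 : t₀ ≤ a' := by rw [ha']; exact le_max_right _ _
  have h3 : a' < b := by rw [ha']; exact max_lt hab ht1
  obtain ⟨k₀, hk₀⟩ := (ht2.eventually_ge_atTop (start c₁)).exists
  have hm := tower_mono c hpos k₀
  have h4 : start c₁ ≤ tower c k₀ a' := hk₀.trans (hm.monotone h2)
  have h5 := core c₁ c₂ θ s X₀ hc₁ hc₂ hθ hs0 hsθ (fun j => c (k₀ + j)) (fun j => hc _)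
    (fun j => P (k₀ + j)) (fun j => hP _) (tower c k₀ a') (tower c k₀ b) h4 (hm h3)
  have h6 := (tower_contDiff c k₀).contDiffOn.dimH_image_le (s := Set.univ)
    (t := {t : ℝ | a < t ∧ t < b ∧ ∃ l₀, ∀ l, l₀ ≤ l → P l ⌊tower c l t⌋₊}) convex_univ
    (Set.subset_univ _)
  refine h5.trans (le_trans (dimH_mono ?_) h6)
  rintro u ⟨hu1, hu2, l₀, hu3⟩
  obtain ⟨t, htt, rfl⟩ := intermediate_value_Icc h3.le (tower_cont c k₀).continuousOn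
    (show u ∈ Set.Icc (tower c k₀ a') (tower c k₀ b) from ⟨hu1.le, hu2.le⟩)
  refine ⟨t, ⟨?_, ?_, l₀ + k₀, fun l hl => ?_⟩, rfl⟩
  · exact lt_of_le_of_lt h1 (hm.lt_iff_lt.1 hu1)
  · exact hm.lt_iff_lt.1 hu2
  · obtain ⟨j, rfl⟩ : ∃ j, l = k₀ + j := ⟨l - k₀, by omega⟩
    rw [tower_shift]
    exact hu3 j (by omega)

end Pool.Agent.K6.H86.WS
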