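import Pool.Agent.K6.H86.WT.Main

set_option autoImplicit false
set_option maxHeartbeats 4000000

/-! # Towers of exponentials and properties which hold somewhere in every short interval

The division step is that of `Pool.Agent.K6.H86.WT.Tower`, for an arbitrary property `P`. -/

namespace Pool.Agent.K6.H86.WS

open Filter Pool.Agent.K6.H86.WT

/-- **The division step.** -/
theorem division (c₁ c₂ : ℝ) (hc₁ : 0 < c₁) (c : ℕ → ℝ) (hc : ∀ l, c₁ ≤ c l ∧ c l ≤ c₂)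
    (DW s β : ℝ) (hDW : 1 ≤ DW) (hs0 : 0 < s) (hs1 : s < 1) (hβ : 0 < β) (hβ1 : β ≤ 1)
    (hβ2 : 1 + 2 * β ≤ Real.exp (c₁ / 2)) (X₀ : ℕ) (P : ℕ → Prop)
    (hwin : ∀ X x : ℕ, X₀ ≤ X → (1 + β) * X ≤ x → x ≤ 2 * X → ∃ (m : ℕ) (y : ℕ → ℕ),
      1 ≤ m ∧ 2 * Real.exp c₂ ^ 2 * (X : ℝ) ^ s ≤ m ∧
        (∀ i, i < m → X < y i ∧ y i ≤ x ∧ P (y i)) ∧
        (∀ i j, i < j → j < m → y i < y j ∧
          ((j : ℝ) - i + 1) * (X : ℝ) ^ s ≤ DW * m * ((y j : ℝ) - y i) ^ s))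
    (Xs : ℝ) (hX0 : (X₀ : ℝ) ≤ Xs) (hX1 : 4 / β ≤ Xs) (hX2 : Real.exp c₂ / (2 * β) ≤ Xs)
    (l : ℕ) (p q : ℝ) (hp : start c₁ ≤ p) (hXp : Xs ≤ tower c l p) (hq : tower c l q = tower c l p + 1 / 2)
    (A : ℝ → ℝ → Prop)
    (hA : ∀ (x y : ℝ) (N : ℕ), p ≤ x → tower c (l + 1) x = N → tower c (l + 1) y = N + 1 / 2 → Xs ≤ N →
      P N → A x y) :
    ∃ lo hi c' d' : ℝ → ℝ,
      Pool.Agent.K6.H86.MM.Division s (2 * Real.exp c₂ ^ 2 * DW) (1 / 2) p q A lo hi c' d' := by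
  have hpos : ∀ l, 0 < c l := fun l => lt_of_lt_of_le hc₁ (hc l).1
  have hc12 : c₁ ≤ c₂ := (hc 0).1.trans (hc 0).2
  have hmono := tower_mono c hpos (l + 1)
  have hcont := tower_cont c (l + 1)
  have hpq : p < q := (tower_mono c hpos l).lt_iff_lt.1 (by linarith)
  have hmv := mvt c₁ c₂ hc₁ c hc l p q hp hq
  obtain ⟨K, hK⟩ : ∃ K : ℝ, K = Real.exp c₂ := ⟨_, rfl⟩
  obtain ⟨D, hD⟩ : ∃ D : ℝ, D = der c (l + 1) p := ⟨_, rfl⟩
  obtain ⟨T, hT⟩ : ∃ T : ℝ → ℝ, T = tower c (l + 1) := ⟨_, rfl⟩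
  have hK1 : 1 ≤ K := by rw [hK]; exact Real.one_le_exp (by linarith)
  have hD0 : 0 < D := by rw [hD]; exact der_pos c hpos (l + 1) p
  obtain ⟨X, hX⟩ : ∃ X : ℝ, X = T p := ⟨_, rfl⟩
  obtain ⟨Y, hY⟩ : ∃ Y : ℝ, Y = T q := ⟨_, rfl⟩
  have hYX : Y = X * Real.exp (c l / 2) := by
    rw [hY, hX, hT, tower_succ, tower_succ, hq, ← Real.exp_add]
    ring_nf
  have hXs : Xs ≤ X := by
    have := tower_next c₁ c₂ hc₁ c hc p hp l
    rw [hX, hT]
    linarith
  rw [← hK] at hwin hX2 ⊢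
  rw [← hK, ← hD, ← hT] at hmv
  rw [← hT] at hmono hcont hA
  have hX4 : 4 ≤ β * X := by
    rw [div_le_iff₀ hβ] at hX1
    nlinarith
  have hXK : K ≤ 2 * β * X := by
    rw [div_le_iff₀ (by positivity)] at hX2
    nlinarith
  have hX4' : 4 ≤ X := by nlinarith
  have hX0' : 0 < X := by linarith
  have hY1 : (1 + 2 * β) * X ≤ Y := by
    rw [hYX, mul_comm]
    apply mul_le_mul_of_nonneg_left _ hX0'.le
    refine hβ2.trans (Real.exp_le_exp.2 ?_)
    have := (hc l).1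
    linarith
  have hY2 : Y ≤ K * X := by
    rw [hYX, mul_comm]
    apply mul_le_mul_of_nonneg_right _ hX0'.le
    rw [hK]
    apply Real.exp_le_exp.2
    have := (hc l).2
    have := hpos l
    linarith
  -- the window
  obtain ⟨X₁, hX₁⟩ : ∃ X₁ : ℕ, X₁ = ⌈X⌉₊ := ⟨_, rfl⟩
  have a1 : X ≤ X₁ := by rw [hX₁]; exact Nat.le_ceil X
  have a2 : (X₁ : ℝ) < X + 1 := by rw [hX₁]; exact Nat.ceil_lt_add_one hX0'.le
  obtain ⟨x₂, hx₂⟩ : ∃ x₂ : ℕ, x₂ = min (⌊Y⌋₊ - 1) (2 * X₁) := ⟨_, rfl⟩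
  have hY4 : 4 ≤ Y := by nlinarith
  have b1 : 1 ≤ ⌊Y⌋₊ := Nat.le_floor (by push_cast; linarith)
  have b2 : ((⌊Y⌋₊ - 1 : ℕ) : ℝ) = (⌊Y⌋₊ : ℝ) - 1 := by rw [Nat.cast_sub b1, Nat.cast_one]
  have b3 := Nat.lt_floor_add_one Y
  have b4 : (⌊Y⌋₊ : ℝ) ≤ Y := Nat.floor_le (by linarith)
  have hx2a : (1 + β) * X₁ ≤ (x₂ : ℝ) := by
    rw [hx₂, Nat.cast_min, b2]
    apply le_min
    · nlinarith
    · push_cast
      nlinarith
  have hx2b : x₂ ≤ 2 * X₁ := by rw [hx₂]; exact min_le_right _ _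
  have hx2c : (x₂ : ℝ) + 1 ≤ Y := by
    have h1 : x₂ ≤ ⌊Y⌋₊ - 1 := by rw [hx₂]; exact min_le_left _ _
    have h2 : (x₂ : ℝ) ≤ ((⌊Y⌋₊ - 1 : ℕ) : ℝ) := by exact_mod_cast h1
    rw [b2] at h2
    linarith
  have hX1pos : (0 : ℝ) < X₁ := by linarith
  obtain ⟨m, y, m1, m2, m3, m4⟩ := hwin X₁ x₂ (by
    have : (X₀ : ℝ) ≤ X₁ := by linarith
    exact_mod_cast this) hx2a hx2b
  have hm0 : (0 : ℝ) < m := by exact_mod_cast m1
  -- the children
  have hch : ∀ i, i < m → ∃ e f : ℝ, p ≤ e ∧ e < f ∧ f ≤ q ∧ T e = y i ∧ T f = y i + 1 / 2 := by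
    intro i hi
    obtain ⟨n1, n2, -⟩ := m3 i hi
    have n1' : (X₁ : ℝ) < y i := by exact_mod_cast n1
    have n2' : (y i : ℝ) ≤ x₂ := by exact_mod_cast n2
    obtain ⟨e, he, he'⟩ := intermediate_value_Icc hpq.le hcont.continuousOn
      (show (y i : ℝ) ∈ Set.Icc (T p) (T q) from ⟨by rw [← hX]; linarith, by rw [← hY]; linarith⟩)
    obtain ⟨f, hf, hf'⟩ := intermediate_value_Icc hpq.le hcont.continuousOn
      (show (y i : ℝ) + 1 / 2 ∈ Set.Icc (T p) (T q) from ⟨by rw [← hX]; linarith, by rw [← hY]; linarith⟩)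
    exact ⟨e, f, he.1, hmono.lt_iff_lt.1 (by rw [he', hf']; linarith), hf.2, he', hf'⟩
  choose! e f e1 e2 e3 e4 e5 using hch
  obtain ⟨w, hw⟩ : ∃ w : ℝ, w = (q - p) / m := ⟨_, rfl⟩
  have hqp : 0 < q - p := by linarith
  have hw0 : 0 < w := by rw [hw]; positivity
  have hmw : m * w = q - p := by rw [hw]; field_simp
  obtain ⟨idx, hidx⟩ : ∃ idx : ℝ → ℕ, ∀ u, idx u = ⌊(u - p) / w⌋₊ := ⟨_, fun _ => rfl⟩
  have i1 : ∀ u, p ≤ u → (idx u : ℝ) * w ≤ u - p := by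
    intro u hu
    rw [← le_div_iff₀ hw0, hidx]
    exact Nat.floor_le (div_nonneg (by linarith) hw0.le)
  have i2 : ∀ u, u - p < (idx u + 1) * w := by
    intro u
    rw [← div_lt_iff₀ hw0, hidx]
    exact Nat.lt_floor_add_one _
  have i3 : ∀ u, p ≤ u → u < q → idx u < m := by
    intro u hu1 hu2
    have h1 := i1 u hu1
    have h2 : (idx u : ℝ) * w < m * w := by linarith
    exact_mod_cast lt_of_mul_lt_mul_right h2 hw0.le
  -- the length of the parent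
  have hDq : D * (q - p) ≤ K * X₁ := by
    have h1 := (hmv p q le_rfl hpq.le le_rfl).1
    rw [← hX, ← hY] at h1
    have h2 : K * X ≤ K * X₁ := mul_le_mul_of_nonneg_left a1 (by linarith)
    linarith
  have hR : (q - p) ^ (1 - s) * (q - p) ^ s = q - p := by
    rw [← Real.rpow_add hqp]; simp
  have hRpos : 0 < (q - p) ^ (1 - s) := Real.rpow_pos_of_pos hqp _
  have hXspos : 0 < (X₁ : ℝ) ^ s := Real.rpow_pos_of_pos hX1pos _
  refine ⟨fun u => p + idx u * w, fun u => p + (idx u + 1) * w, fun u => e (idx u), fun u => f (idx u), ?_⟩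
  constructor
  · intro u hu1 hu2
    have := i1 u hu1
    show p + idx u * w ≤ u
    linarith
  · intro u hu1 hu2
    have := i2 u
    show u < p + (idx u + 1) * w
    linarith
  · exact fun u hu1 hu2 => e2 _ (i3 u hu1 hu2)
  · exact fun u hu1 hu2 => e1 _ (i3 u hu1 hu2)
  · exact fun u hu1 hu2 => e3 _ (i3 u hu1 hu2)
  · intro u hu1 hu2
    have hi := i3 u hu1 hu2
    show f (idx u) - e (idx u) ≤ (1 - 1 / 2) * (q - p)
    have h1 := (hmv (e (idx u)) (f (idx u)) (e1 _ hi) (e2 _ hi).le (e3 _ hi)).1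
    rw [e4 _ hi, e5 _ hi] at h1
    have h2 := (hmv p q le_rfl hpq.le le_rfl).2
    rw [← hX, ← hY] at h2
    have h3 : 2 * β * X ≤ K * D * (q - p) := by nlinarith
    have h4 : K ≤ K * D * (q - p) := hXK.trans h3
    have h5 : 1 ≤ D * (q - p) := by
      have h6 : K * 1 ≤ K * (D * (q - p)) := by linarith
      exact le_of_mul_le_mul_left h6 (by linarith)
    have h6 : D * (f (idx u) - e (idx u)) ≤ D * ((1 - 1 / 2) * (q - p)) := by linarith
    exact le_of_mul_le_mul_left h6 hD0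
  · intro u hu1 hu2
    have hi := i3 u hu1 hu2
    obtain ⟨n1, n2, n3⟩ := m3 _ hi
    have n1' : (X₁ : ℝ) < y (idx u) := by exact_mod_cast n1
    exact hA _ _ (y (idx u)) (e1 _ hi) (e4 _ hi) (e5 _ hi) (by linarith) n3
  · intro u hu1 hu2
    have hi := i3 u hu1 hu2
    show p + (idx u + 1) * w - (p + idx u * w) ≤ (q - p) ^ (1 - s) * (f (idx u) - e (idx u)) ^ s
    have h0 : p + (idx u + 1) * w - (p + idx u * w) = w := by ring
    rw [h0]
    have hδ : 0 < f (idx u) - e (idx u) := by linarith [e2 _ hi]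
    have h1 := (hmv (e (idx u)) (f (idx u)) (e1 _ hi) (e2 _ hi).le (e3 _ hi)).2
    rw [e4 _ hi, e5 _ hi] at h1
    have h2 := aux 1 (f (idx u) - e (idx u)) D (q - p) K X₁ s zero_le_one hδ hD0 hqp hK1 hX1pos hs0 hs1
      (by linarith) hDq
    rw [Real.one_rpow, one_mul] at h2
    have hδs : 0 < (f (idx u) - e (idx u)) ^ s := Real.rpow_pos_of_pos hδ _
    have h3 : (q - p) ^ s ≤ m * (f (idx u) - e (idx u)) ^ s := by
      refine h2.trans ?_
      rw [← mul_assoc]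
      exact mul_le_mul_of_nonneg_right m2 hδs.le
    have h4 : q - p ≤ m * ((q - p) ^ (1 - s) * (f (idx u) - e (idx u)) ^ s) := by
      calc q - p = (q - p) ^ (1 - s) * (q - p) ^ s := hR.symm
        _ ≤ (q - p) ^ (1 - s) * (m * (f (idx u) - e (idx u)) ^ s) := mul_le_mul_of_nonneg_left h3 hRpos.le
        _ = _ := by ring
    rw [← hmw] at h4
    have h5 : (m : ℝ) * w ≤ m * ((q - p) ^ (1 - s) * (f (idx u) - e (idx u)) ^ s) := by
      rw [hmw] at h4 ⊢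
      exact h4
    exact le_of_mul_le_mul_left h5 hm0
  · intro u v hu huv hv
    have hu' : u < q := huv.trans hv
    have hv' : p ≤ v := hu.trans huv.le
    have hi := i3 u hu hu'
    have hj := i3 v hv' hv
    have hij : idx u ≤ idx v := by
      rw [hidx, hidx]
      apply Nat.floor_mono
      apply div_le_div_of_nonneg_right _ hw0.le
      linarith
    rcases hij.eq_or_lt with h | h
    · left
      simp only [h]
      exact ⟨trivial, trivial, trivial, trivial⟩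
    · right
      show f (idx u) < e (idx v) ∧ v - u ≤ 2 * K ^ 2 * DW * ((q - p) ^ (1 - s) * (e (idx v) - f (idx u)) ^ s)
      obtain ⟨g1, g2⟩ := m4 _ _ h hj
      have g1' : (y (idx u) : ℝ) + 1 ≤ y (idx v) := by exact_mod_cast g1
      have hlt : f (idx u) < e (idx v) := hmono.lt_iff_lt.1 (by
        rw [e5 _ hi, e4 _ hj]
        linarith)
      refine ⟨hlt, ?_⟩
      have hpf : p ≤ f (idx u) := (e1 _ hi).trans (e2 _ hi).le
      have heq : e (idx v) ≤ q := (e2 _ hj).le.trans (e3 _ hj)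
      have h1 := (hmv (f (idx u)) (e (idx v)) hpf hlt.le heq).2
      rw [e5 _ hi, e4 _ hj] at h1
      obtain ⟨δ, hδd⟩ : ∃ δ : ℝ, δ = e (idx v) - f (idx u) := ⟨_, rfl⟩
      obtain ⟨g, hg⟩ : ∃ g : ℝ, g = (y (idx v) : ℝ) - y (idx u) := ⟨_, rfl⟩
      rw [← hδd] at h1 ⊢
      rw [← hg] at g2
      have hδ : 0 < δ := by rw [hδd]; linarith
      have hg1 : 1 ≤ g := by rw [hg]; linarith
      have h2 := aux g δ D (q - p) K X₁ s (by linarith) hδ hD0 hqp hK1 hX1pos hs0 hs1 (by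
        have : g - 1 / 2 ≤ K * D * δ := by rw [hg]; linarith
        linarith) hDq
      have hδs : 0 < δ ^ s := Real.rpow_pos_of_pos hδ _
      have hqs : 0 < (q - p) ^ s := Real.rpow_pos_of_pos hqp _
      obtain ⟨n, hn⟩ : ∃ n : ℝ, n = (idx v : ℝ) - idx u + 1 := ⟨_, rfl⟩
      rw [← hn] at g2
      have h3 : n * (q - p) ^ s * (X₁ : ℝ) ^ s ≤ 2 * K ^ 2 * DW * (m * δ ^ s) * (X₁ : ℝ) ^ s := by
        calc n * (q - p) ^ s * (X₁ : ℝ) ^ s = n * (X₁ : ℝ) ^ s * (q - p) ^ s := by ring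
          _ ≤ DW * m * g ^ s * (q - p) ^ s := mul_le_mul_of_nonneg_right g2 hqs.le
          _ = DW * m * (g ^ s * (q - p) ^ s) := by ring
          _ ≤ DW * m * (2 * K ^ 2 * ((X₁ : ℝ) ^ s * δ ^ s)) := mul_le_mul_of_nonneg_left h2 (by positivity)
          _ = _ := by ring
      have h4 := le_of_mul_le_mul_right h3 hXspos
      have h5 : v - u ≤ n * w := by
        have k1 := i1 u hu
        have k2 := i2 v
        rw [hn]
        linarith
      have h6 : (m : ℝ) * (n * w) ≤ m * (2 * K ^ 2 * DW * ((q - p) ^ (1 - s) * δ ^ s)) := by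
        calc (m : ℝ) * (n * w) = n * (m * w) := by ring
          _ = n * (q - p) := by rw [hmw]
          _ = n * ((q - p) ^ (1 - s) * (q - p) ^ s) := by rw [hR]
          _ = (q - p) ^ (1 - s) * (n * (q - p) ^ s) := by ring
          _ ≤ (q - p) ^ (1 - s) * (2 * K ^ 2 * DW * (m * δ ^ s)) := mul_le_mul_of_nonneg_left h4 hRpos.le
          _ = _ := by ring
      exact h5.trans (le_of_mul_le_mul_left h6 hm0)


/-- `P` holds somewhere in every interval `[x - 1, x + x ^ θ]`, `x ≥ X₀`. -/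
def Short (θ X₀ : ℝ) (P : ℕ → Prop) : Prop :=
  ∀ x : ℝ, X₀ ≤ x → ∃ N : ℕ, x ≤ N + 1 ∧ (N : ℝ) ≤ x + x ^ θ ∧ P N

theorem window (θ s β K X₀ : ℝ) (hθ : 0 < θ) (hs0 : 0 < s) (hsθ : s + θ < 1) (hβ : 0 < β) (hβ1 : β ≤ 1)
    (hK : 1 ≤ K) : ∃ X₁ : ℕ, ∀ P : ℕ → Prop, Short θ X₀ P → ∀ X x : ℕ, X₁ ≤ X → (1 + β) * X ≤ x →
      x ≤ 2 * X → ∃ (m : ℕ) (y : ℕ → ℕ), 1 ≤ m ∧ K * (X : ℝ) ^ s ≤ m ∧
        (∀ i, i < m → X < y i ∧ y i ≤ x ∧ P (y i)) ∧
        (∀ i j, i < j → j < m → y i < y j ∧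
          ((j : ℝ) - i + 1) * (X : ℝ) ^ s ≤ (16 / β) * m * ((y j : ℝ) - y i) ^ s) := by
  have hθ1 : θ < 1 := by linarith
  have hs1 : s < 1 := by linarith
  have e1 : ∀ᶠ X : ℕ in atTop, 32 * K / β ≤ (X : ℝ) ^ (1 - θ - s) :=
    ((tendsto_rpow_atTop (by linarith)).comp tendsto_natCast_atTop_atTop).eventually_ge_atTop _
  have e2 : ∀ᶠ X : ℕ in atTop, max 1 X₀ ≤ (X : ℝ) := tendsto_natCast_atTop_atTop.eventually_ge_atTop _
  obtain ⟨X₁, hX₁⟩ := eventually_atTop.1 (e1.and e2)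
  refine ⟨X₁, fun P hP X x hX hx1 hx2 => ?_⟩
  obtain ⟨f1, f2⟩ := hX₁ X hX
  have hXX₀ : X₀ ≤ X := (le_max_right _ _).trans f2
  have hX1 : (1 : ℝ) ≤ X := (le_max_left _ _).trans f2
  have hX0 : (0 : ℝ) < X := by linarith
  obtain ⟨L, hL⟩ : ∃ L : ℝ, L = (2 * (X : ℝ)) ^ θ := ⟨_, rfl⟩
  have hL1 : 1 ≤ L := by rw [hL]; exact Real.one_le_rpow (by linarith) hθ.le
  have hL2 : L ≤ 2 * (X : ℝ) ^ θ := by
    rw [hL, Real.mul_rpow (by norm_num) hX0.le]
    apply mul_le_mul_of_nonneg_right _ (by positivity)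
    calc (2 : ℝ) ^ θ ≤ 2 ^ (1 : ℝ) := Real.rpow_le_rpow_of_exponent_le (by norm_num) hθ1.le
      _ = 2 := Real.rpow_one 2
  -- `K X ^ s ≤ β X / (16 L)`
  have hKX : K * (X : ℝ) ^ s ≤ β * X / (16 * L) := by
    rw [le_div_iff₀ (by positivity)]
    have h1 : (X : ℝ) = X ^ (1 - θ - s) * X ^ s * X ^ θ := by
      rw [← Real.rpow_add hX0, ← Real.rpow_add hX0]
      conv_lhs => rw [← Real.rpow_one (X : ℝ)]
      congr 1
      ring
    have h2 : 32 * K ≤ β * (X : ℝ) ^ (1 - θ - s) := by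
      rw [div_le_iff₀ hβ] at f1
      linarith
    calc K * (X : ℝ) ^ s * (16 * L) ≤ K * (X : ℝ) ^ s * (16 * (2 * (X : ℝ) ^ θ)) := by
          apply mul_le_mul_of_nonneg_left _ (by positivity)
          linarith
      _ = 32 * K * ((X : ℝ) ^ s * (X : ℝ) ^ θ) := by ring
      _ ≤ β * (X : ℝ) ^ (1 - θ - s) * ((X : ℝ) ^ s * (X : ℝ) ^ θ) :=
          mul_le_mul_of_nonneg_right h2 (by positivity)
      _ = β * ((X : ℝ) ^ (1 - θ - s) * (X : ℝ) ^ s * (X : ℝ) ^ θ) := by ring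
      _ = β * X := by rw [← h1]
  have hXs1 : 1 ≤ (X : ℝ) ^ s := Real.one_le_rpow hX1 hs0.le
  have h1KX : 1 ≤ K * (X : ℝ) ^ s := by nlinarith
  obtain ⟨m, hm⟩ : ∃ m : ℕ, m = ⌊β * X / (8 * L)⌋₊ := ⟨_, rfl⟩
  have hdbl : β * X / (8 * L) = 2 * (β * X / (16 * L)) := by
    field_simp
    ring
  have hm1 : (m : ℝ) ≤ β * X / (8 * L) := by rw [hm]; exact Nat.floor_le (by positivity)
  have hm2 : β * X / (16 * L) ≤ m := by
    have := Nat.lt_floor_add_one (β * X / (8 * L))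
    rw [← hm, hdbl] at this
    linarith
  have hmL : (m : ℝ) * (8 * L) ≤ β * X := by
    rwa [le_div_iff₀ (by positivity)] at hm1
  have hmL2 : β * X ≤ m * (16 * L) := by
    rwa [div_le_iff₀ (by positivity)] at hm2
  have hmpos : 1 ≤ m := by
    have : (1 : ℝ) ≤ m := by linarith
    exact_mod_cast this
  have hx1' : (1 + β) * (X : ℝ) ≤ x := hx1
  -- the points
  have hpt : ∀ i : ℕ, i < m → ∃ N : ℕ, (X : ℝ) + 2 + i * (4 * L) ≤ N + 1 ∧
      (N : ℝ) ≤ (X : ℝ) + 2 + i * (4 * L) + L ∧ P N := by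
    intro i hi
    have him : ((i : ℝ) + 1) ≤ m := by exact_mod_cast hi
    have h1 : ((i : ℝ) + 1) * (4 * L) ≤ β * X / 2 := by
      have : ((i : ℝ) + 1) * (4 * L) ≤ m * (4 * L) := mul_le_mul_of_nonneg_right him (by positivity)
      linarith
    have h2 : (X : ℝ) + 2 + i * (4 * L) ≤ 2 * X := by nlinarith
    obtain ⟨N, n1, n2, n3⟩ := hP ((X : ℝ) + 2 + i * (4 * L)) (by
      have : 0 ≤ (i : ℝ) * (4 * L) := by positivity
      linarith)
    refine ⟨N, n1, n2.trans ?_, n3⟩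
    have h3 : ((X : ℝ) + 2 + i * (4 * L)) ^ θ ≤ L := by
      rw [hL]
      exact Real.rpow_le_rpow (by positivity) (by rw [← hL]; exact h2) hθ.le
    linarith
  choose! y hy using hpt
  refine ⟨m, y, hmpos, by linarith, fun i hi => ?_, fun i j hij hj => ?_⟩
  · obtain ⟨h1, h2, h3⟩ := hy i hi
    have him : ((i : ℝ) + 1) ≤ m := by exact_mod_cast hi
    have h4 : ((i : ℝ) + 1) * (4 * L) ≤ β * X / 2 := by
      have : ((i : ℝ) + 1) * (4 * L) ≤ m * (4 * L) := mul_le_mul_of_nonneg_right him (by positivity)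
      linarith
    have h5 : 0 ≤ (i : ℝ) * (4 * L) := by positivity
    refine ⟨?_, ?_, h3⟩
    · have : (X : ℝ) < y i := by linarith
      exact_mod_cast this
    · have : (y i : ℝ) ≤ x := by nlinarith
      exact_mod_cast this
  · obtain ⟨h1, h2, -⟩ := hy i (hij.trans hj)
    obtain ⟨h3, h4, -⟩ := hy j hj
    obtain ⟨u, hu⟩ : ∃ u : ℝ, u = (j : ℝ) - i := ⟨_, rfl⟩
    have hu1 : 1 ≤ u := by
      have : (i : ℝ) + 1 ≤ j := by exact_mod_cast hij
      rw [hu]; linarith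
    have hum : u ≤ m := by
      have h5 : (j : ℝ) ≤ m := by exact_mod_cast hj.le
      have h6 : (0 : ℝ) ≤ i := Nat.cast_nonneg i
      rw [hu]; linarith
    have hd : u * (2 * L) ≤ (y j : ℝ) - y i := by
      have h5 : (j : ℝ) * (4 * L) - i * (4 * L) = u * (4 * L) := by rw [hu]; ring
      nlinarith
    refine ⟨?_, ?_⟩
    · have : (y i : ℝ) < y j := by nlinarith
      exact_mod_cast this
    · rw [← hu]
      have hu0 : 0 < u := by linarith
      have hm0 : (0 : ℝ) < m := by linarith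
      have k1 : u + 1 ≤ 2 * ((m : ℝ) ^ (1 - s) * u ^ s) := by
        have : u = u ^ (1 - s) * u ^ s := by
          rw [← Real.rpow_add hu0]
          conv_lhs => rw [← Real.rpow_one u]
          congr 1
          ring
        calc u + 1 ≤ 2 * u := by linarith
          _ = 2 * (u ^ (1 - s) * u ^ s) := by rw [← this]
          _ ≤ _ := by
            apply mul_le_mul_of_nonneg_left _ (by norm_num)
            apply mul_le_mul_of_nonneg_right _ (by positivity)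
            exact Real.rpow_le_rpow hu0.le hum (by linarith)
      have k2 : (X : ℝ) ^ s ≤ 8 / β * ((m : ℝ) ^ s * (2 * L) ^ s) := by
        have h5 : β / 8 * X ≤ m * (2 * L) := by linarith
        have h6 : (β / 8) * (X : ℝ) ^ s ≤ ((m : ℝ) * (2 * L)) ^ s := by
          calc (β / 8) * (X : ℝ) ^ s ≤ (β / 8) ^ s * (X : ℝ) ^ s := by
                apply mul_le_mul_of_nonneg_right _ (by positivity)
                calc β / 8 = (β / 8) ^ (1 : ℝ) := (Real.rpow_one _).symm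
                  _ ≤ (β / 8) ^ s := Real.rpow_le_rpow_of_exponent_ge (by positivity) (by linarith) hs1.le
            _ = (β / 8 * X) ^ s := (Real.mul_rpow (by positivity) hX0.le).symm
            _ ≤ _ := Real.rpow_le_rpow (by positivity) h5 hs0.le
        rw [Real.mul_rpow hm0.le (by positivity)] at h6
        rw [div_mul_eq_mul_div, le_div_iff₀ hβ]
        linarith
      calc (u + 1) * (X : ℝ) ^ s ≤ (2 * ((m : ℝ) ^ (1 - s) * u ^ s)) * (8 / β * ((m : ℝ) ^ s * (2 * L) ^ s)) :=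
            mul_le_mul k1 k2 (by positivity) (by positivity)
        _ = 16 / β * ((m : ℝ) ^ (1 - s) * (m : ℝ) ^ s) * (u ^ s * (2 * L) ^ s) := by ring
        _ = 16 / β * m * (u * (2 * L)) ^ s := by
            rw [← Real.rpow_add hm0, Real.mul_rpow hu0.le (by positivity)]
            congr 2
            rw [show 1 - s + s = 1 by ring, Real.rpow_one]
        _ ≤ _ := by
            apply mul_le_mul_of_nonneg_left _ (by positivity)
            exact Real.rpow_le_rpow (by positivity) hd hs0.le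

end Pool.Agent.K6.H86.WS
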